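import Pool.Agent.Helper620_Tuning.Collapse

/-!
# Tuning with a polynomial whose critical point is fixed

`O : Outer` is the polynomial `P₁` with its superattracting cycle, `I : Inner O.d` is the
polynomial `P₂`; the critical point of `P₂` is assumed to be fixed, that is, `P₂` is conjugate to
`z ↦ z ^ d` by an affine map. For every such pair the following are equivalent: the tuned map is
topologically conjugate to a polynomial of the same degree as `P₁`; it is topologically conjugate
to `P₁` itself; only finitely many components of the basin of the cycle of `ω` have diameter at
least `ε`, for every `ε > 0`.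
-/

set_option autoImplicit false

open Pool.Agent.Helper620_Tuning

namespace Pool.Agent.Results.MP_6070ce_an.FixedCritical

/-- Let the critical point of `P₂` be fixed. The tuned map is topologically conjugate to a
polynomial of the same degree as `P₁` if and only if the components of the basin form a null
family, and if and only if it is topologically conjugate to `P₁`. -/
theorem result (O : Outer) (I : Inner O.d) (hfix : I.P.eval I.c = I.c) :
    (TunedIsPolynomial O I ↔ O.Null) ∧ (TunedIsPolynomial O I ↔ TunedConj O I O.P) := by
  have h1 : TunedIsPolynomial O I → O.Null := by
    rintro ⟨Q, -, h, -⟩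
    have : T2Space (Quot (Rel O I)) := h.symm.t2Space
    exact Outer.null_of_t2 I hfix
  have h2 : O.Null → TunedConj O I O.P := fun h => Outer.conj_of_null I hfix h
  have h3 : TunedConj O I O.P → TunedIsPolynomial O I := fun h => ⟨O.P, rfl, h⟩
  exact ⟨⟨h1, fun h => h3 (h2 h)⟩, ⟨fun h => h2 (h1 h), h3⟩⟩

end Pool.Agent.Results.MP_6070ce_an.FixedCritical
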