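import Pool.Agent.Helper620_Tuning.Necessity

/-!
# A necessary condition on `P₁` alone

`O : Outer` is the polynomial `P₁` with its superattracting cycle, `I : Inner O.d` is the
polynomial `P₂`, both as in the problem and otherwise arbitrary. If the tuned map is topologically
conjugate to a polynomial, then only finitely many components of the basin of the cycle of `ω` for
`P₁` have diameter at least `ε`, for every `ε > 0`. This condition does not depend on `P₂`.
-/

set_option autoImplicit false

open Pool.Agent.Helper620_Tuning

namespace Pool.Agent.Results.MP_6070ce_an.NullNecessary

/-- If `P₁` tuned with `P₂` is topologically conjugate to a polynomial `Q`, then the components of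
the basin of the cycle of `ω` for `P₁` form a null family. -/
theorem result (O : Outer) (I : Inner O.d) (Q : Polynomial ℂ) (h : TunedConj O I Q) : O.Null :=
  Outer.null_of_conj h

end Pool.Agent.Results.MP_6070ce_an.NullNecessary
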