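import Pool.Agent.Helper620_Tuning.Away

/-!
# Tuning with a polynomial whose critical point is fixed: other critical orbits away from `B`

`O : Outer` is the polynomial `P₁` with its superattracting cycle, `I : Inner O.d` is the
polynomial `P₂`, whose critical point is assumed to be fixed. If no orbit of a critical point of
`P₁` other than `ω` accumulates on the closure of the immediate basin `B` of `ω`, the tuned map is
topologically conjugate to `P₁`.
-/

set_option autoImplicit false

open Set Pool.Agent.Helper620_Tuning

namespace Pool.Agent.Results.MP_6070ce_an.OrbitsAway

/-- Let the critical point of `P₂` be fixed, and suppose that, for every critical point `c ≠ ω` of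
`P₁`, the closure of the forward orbit of `c` is disjoint from the closure of `B`. Then the tuned
map is topologically conjugate to `P₁`. -/
theorem result (O : Outer) (I : Inner O.d) (hfix : I.P.eval I.c = I.c)
    (haway : ∀ c, O.P.derivative.eval c = 0 → c ≠ O.ω →
      Disjoint (closure (range fun n : ℕ => (ev O.P)^[n] c)) (closure O.B)) :
    TunedConj O I O.P :=
  Outer.conj_of_null I hfix (Outer.null_of_away haway)

end Pool.Agent.Results.MP_6070ce_an.OrbitsAway
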